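import Pool.Agent.Helper70.ML.St3

/-! # Module PSPL of project ML (MP_a2f62e_al): the extension splits -/

set_option autoImplicit false

namespace Pool.Agent.Helper95.ML

open Pool.Agent.Helper70.ML Pool.Agent.Helper75.MX

theorem stb_of (hPSTA : StPSTA) (hPSTD : StPSTD) {n : ℕ} {F : Type} [Field F] {E : Type} [Group E]
    [Finite E] {φ : E →* SLn n F} {X : Fin n → Fin n → F → E} (hn : 3 ≤ n) (h : Can φ X) : Stb φ X := by
  obtain ⟨h1, h2, h3, h4⟩ := hPSTA n F E φ X hn h
  have h5 := hPSTD n F E φ X hn h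
  refine { toCan := h, add := h4, com := ?_, cmm := h3 }
  intro i j k l a b hij hkl hjk hil
  by_cases hik : i = k
  · subst hik
    by_cases hjl : j = l
    · subst hjl
      rw [h4 i j a b hij, h4 i j b a hij, add_comm]
    · exact h1 i j l a b hij hil hjl
  · by_cases hjl : j = l
    · subst hjl
      exact h2 i j k a b hij hkl hik
    · exact h5 i j k l a b hij hkl hik hil hjk hjl

theorem hPSPL (hPCAN : StPCAN) (hPSTA : StPSTA) (hPSTD : StPSTD) (hPWEQ : StPWEQ) (hPTOR : StPTOR)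
    (hPNHK : StPNHK) (hPUTR : StPUTR) (hPUHK : StPUHK) (hPBRU : StPBRU) (hPGEN : StPGEN) : StPSPL := by
  intro n F _ _ E _ _ φ hn hCE
  obtain ⟨X, hX⟩ := hPCAN n F E φ hn hCE
  have hS : Stb φ X := stb_of hPSTA hPSTD hn hX
  have hW : Weq φ X := hPWEQ n F E φ X hX
  have hT : Tor φ X := hPTOR n F E φ X hn hX hW
  obtain ⟨hN1, hN2⟩ := hPNHK n F E φ X hn hX hW hT
  obtain ⟨hU1, hU2⟩ := hPUTR n F
  have hUK := hPUHK n F E φ X hn hS
  have hB := hPBRU n F E φ X hn hS hW hT
  generalize hSdef : Subgroup.closure ({x | ∃ i j a, i < j ∧ x = X i j a} ∪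
    {x | ∃ i j a, i ≠ j ∧ a ≠ 0 ∧ x = Hr X i j a} ∪
    {x | ∃ r s : Fin n, (s : ℕ) = r + 1 ∧ x = Wr X r s 1}) = S at hB
  have hup : ∀ u ∈ Up X, φ u ∈ Subgroup.closure {x : SLn n F | ∃ i j a, i < j ∧ x = tv i j a} := by
    intro u hu
    have hle : Up X ≤ (Subgroup.closure {x : SLn n F | ∃ i j a, i < j ∧ x = tv i j a}).comap φ := by
      unfold Up
      rw [Subgroup.closure_le]
      rintro x ⟨i, j, a, hij, rfl⟩
      refine Subgroup.subset_closure ⟨i, j, a, hij, ?_⟩
      exact hX.map i j a (ne_of_lt hij)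
    exact hle hu
  -- injectivity on S
  have hinj : ∀ x ∈ S, φ x = 1 → x = 1 := by
    intro x hx hx1
    obtain ⟨u, hu, m, hm, v, hv, rfl⟩ := hB x hx
    have e1 : φ m = (φ u)⁻¹ * (φ v)⁻¹ := by
      rw [map_mul, map_mul] at hx1
      have e2 : φ u * φ m = (φ v)⁻¹ := mul_eq_one_iff_eq_inv.mp hx1
      rw [← e2, inv_mul_cancel_left]
    have hmem : φ m ∈ Subgroup.closure {x : SLn n F | ∃ i j a, i < j ∧ x = tv i j a} := by
      rw [e1]
      exact mul_mem (inv_mem (hup u hu)) (inv_mem (hup v hv))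
    obtain ⟨σ, c, hσ⟩ := hN2 m hm
    have hφm : φ m = 1 := hU2 (φ m) σ c hσ (hU1 (φ m) hmem).1
    have hm1 : m = 1 := hN1 m hm hφm
    subst hm1
    rw [mul_one] at hx1 ⊢
    exact hUK (u * v) (mul_mem hu hv) hx1
  -- surjectivity
  have hsur : S.map φ = ⊤ := by
    refine hPGEN n F (by omega) (S.map φ) ?_ ?_
    · intro i j a hij
      refine ⟨X i j a, ?_, hX.map i j a (ne_of_lt hij)⟩
      rw [← hSdef]
      exact Subgroup.subset_closure (Or.inl (Or.inl ⟨i, j, a, hij, rfl⟩))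
    · intro r s hrs
      have hne : r ≠ s := by
        rintro rfl
        omega
      refine ⟨Wr X r s 1, ?_, ?_⟩
      · rw [← hSdef]
        exact Subgroup.subset_closure (Or.inr ⟨r, s, hrs, rfl⟩)
      · unfold Wr
        rw [map_mul, map_mul, hX.map r s 1 hne, hX.map s r _ hne.symm, inv_one]
  have hbij : Function.Bijective (φ.comp S.subtype) := by
    constructor
    · rw [injective_iff_map_eq_one]
      rintro ⟨x, hx⟩ hx1
      have := hinj x hx hx1
      exact Subtype.ext this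
    · intro g
      have hg : g ∈ S.map φ := by rw [hsur]; exact Subgroup.mem_top g
      obtain ⟨x, hx, hxg⟩ := hg
      exact ⟨⟨x, hx⟩, hxg⟩
  let e := MulEquiv.ofBijective (φ.comp S.subtype) hbij
  refine ⟨S.subtype.comp e.symm.toMonoidHom, fun g => ?_⟩
  exact e.apply_symm_apply g

end Pool.Agent.Helper95.ML
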